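import Pool.Agent.U898.BM.MX
import Pool.Agent.U776.BM.StmCR

/-! Project BM, package MX with the corrected statement `S_CR2`. -/

set_option autoImplicit false

open Set Filter Topology ComplexConjugate

namespace Pool.Agent.U898.BM.MX2

open Pool.Agent.U856.BM Pool.Agent.U776.BM Pool.Agent.U898.BM.MX

/-- the statement of package MX, with `S_CR2` -/
def S_MX2 : Prop := S_TR → S_RV → S_SD → S_CO → S_CR2 → ∀ a b v α : ℝ, Ok a b v α → Dns a b v α →
  TopMix (Tb a b v α)

/-- **MX2** From the dense separatrix to mixing, with the corrected statement `S_CR2`. -/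
theorem t_MX2 : S_MX2 := by
  intro hTR hRV hSD hCO hCR a b v α hok hD x0 y0 e0 f0 hx0 hy0 he0 hf0 ε hε
  obtain ⟨η1, hη1, K, hgood⟩ := good_unif hTR hCO hok hD y0 f0 hy0 hf0 ε hε
  obtain ⟨k', η2, hη2, hgood'⟩ := good_local hTR hCO hok hD x0 (-e0) hx0
    (by rw [norm_neg]; exact he0) ε hε 0
  obtain ⟨s0', hs0', hs1', hG'⟩ := hgood' 0 (by simpa using hη2)
  set S' : ℝ := 0 + k' * ll a b with hS'
  set l : ℝ := ll a b with hl
  have hl0 : 0 < l := by
    have ha : 0 < a := by linarith [hok.1]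
    rw [hl, ll]
    positivity
  set εc : ℝ := min (η1 / 2) (η2 / 2) with hεc
  have hεc0 : 0 < εc := lt_min (by linarith) (by linarith)
  have hεc1 : εc ≤ η1 / 2 := min_le_left _ _
  have hεc2 : εc ≤ η2 / 2 := min_le_right _ _
  obtain ⟨N, hN⟩ := hCR a b v α hok εc hεc0
  set c0 : ℝ := 2 * (a - v / Real.sin α) * a / √(a ^ 2 + b ^ 2) with hc0
  refine ⟨S' + c0 + (N + K + 1) * l, fun t ht => ?_⟩
  set m : ℤ := ⌊(t - S' - c0) / l⌋ with hm
  have hm1 : (m : ℝ) ≤ (t - S' - c0) / l := Int.floor_le _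
  have hm2 : (t - S' - c0) / l < m + 1 := Int.lt_floor_add_one _
  rw [le_div_iff₀ hl0] at hm1
  have hm3 : (N + K + 1 : ℝ) ≤ (t - S' - c0) / l := by
    rw [le_div_iff₀ hl0]; linarith
  rw [div_lt_iff₀ hl0] at hm2
  obtain ⟨k, hk, s0, hs0, hs1, hG⟩ := hgood (t - S' - c0 - m * l) ⟨by linarith, by linarith⟩
  have hNm : (N : ℝ) + k < m := by
    have h1 : (N + K + 1 : ℝ) < m + 1 := by
      refine hm3.trans_lt ?_
      rw [div_lt_iff₀ hl0]
      exact hm2
    have h2 := le_abs_self (k : ℝ)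
    linarith
  have hNm' : (N : ℤ) + k < m := by exact_mod_cast hNm
  obtain ⟨n, hn⟩ : ∃ n : ℕ, (n : ℤ) = m - k := ⟨(m - k).toNat, Int.toNat_of_nonneg (by omega)⟩
  have hnN : N ≤ n := by omega
  have hnR : (n : ℝ) = m - k := by exact_mod_cast hn
  obtain ⟨x, e, x', e', tn, u0, hx, he, he1, hcut, him, hx', he', he1', hcut', him', hu0, htn, hOrb⟩ :=
    hN n hnN
  set u : ℝ := min u0 (min s0 s0') / 2 with hu
  have hmin : 0 < min u0 (min s0 s0') := lt_min hu0 (lt_min hs0 hs0')
  have hu1 : 0 < u := by rw [hu]; linarith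
  have hu2 : u < u0 := by
    have := min_le_left u0 (min s0 s0')
    rw [hu]; linarith
  have hu3 : u < s0 := by
    have := (min_le_right u0 (min s0 s0')).trans (min_le_left _ _)
    rw [hu]; linarith
  have hu4 : u < s0' := by
    have := (min_le_right u0 (min s0 s0')).trans (min_le_right _ _)
    rw [hu]; linarith
  have hO3 := hOrb u u hu1 hu2 hu1 hu2
  have hxu := end_int hO3
  have hxu' := start_int hO3
  have hnear : ∀ s : ℝ, 0 < s → s ≤ 1 → ‖x + s • e - (VV v α + s • es a b α)‖ < 2 * εc := by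
    intro s h1 h2
    have e1 : x + s • e - (VV v α + s • es a b α) = (x - VV v α) + s • (e - es a b α) := by module
    rw [e1]
    refine (norm_add_le _ _).trans_lt ?_
    rw [norm_smul, Real.norm_eq_abs, abs_of_pos h1]
    nlinarith [norm_nonneg (e - es a b α)]
  have hnear' : ∀ s : ℝ, 0 < s → s ≤ 1 → ‖x' + s • e' - (VV v α + s • es a b α)‖ < 2 * εc := by
    intro s h1 h2
    have e1 : x' + s • e' - (VV v α + s • es a b α) = (x' - VV v α) + s • (e' - es a b α) := by module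
    rw [e1]
    refine (norm_add_le _ _).trans_lt ?_
    rw [norm_smul, Real.norm_eq_abs, abs_of_pos h1]
    nlinarith [norm_nonneg (e' - es a b α)]
  obtain ⟨y'', f'', hO2, hy2, hf2⟩ := hG (x + s0 • e) e
    (t - S' - c0 - m * l + k * l - s0 + (n * l + c0 - tn)) ((hnear s0 hs0 hs1).trans_le (by linarith))
    (by linarith) he1 (by
      have e1 : t - S' - c0 - m * l + k * l - s0 + (n * l + c0 - tn) -
          (t - S' - c0 - m * l + k * l - s0) = -(tn - (n * l + c0)) := by ring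
      rw [e1, abs_neg]
      linarith)
  obtain ⟨y1, f1, hO1, hy1, hf1⟩ := hG' (x' + s0' • e') e' (S' - s0')
    ((hnear' s0' hs0' hs1').trans_le (by linarith)) (by linarith) he1' (by
      rw [sub_self, abs_zero]; exact hη2)
  have hA := seg (tb_convex a b v α) hu3.le hxu (start_int hO2)
  have hB := seg (tb_convex a b v α) hu4.le hxu' (start_int hO1)
  have hC := hRV _ _ _ _ _ _ (hTR _ _ _ _ _ _ _ _ _ hB hO1)
  have hF := hTR _ _ _ _ _ _ _ _ _ hC (hTR _ _ _ _ _ _ _ _ _ hO3 (hTR _ _ _ _ _ _ _ _ _ hA hO2))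
  have htime : s0' - u + (S' - s0') + (u + tn + u + (s0 - u +
      (t - S' - c0 - m * l + k * l - s0 + (n * l + c0 - tn)))) = t := by
    rw [hnR]
    ring
  rw [htime] at hF
  refine ⟨y1, -f1, y'', f'', hy1, ?_, ?_, hy2, hf2, hF⟩
  · have e1 : -f1 - e0 = -(f1 - -e0) := by ring
    rw [e1, norm_neg]
    exact hf1
  · rw [norm_neg, orb_norm hO1, he1']

end Pool.Agent.U898.BM.MX2
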