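import Pool.Agent.U856.BM.Stm1

/-! Project BM, package MX: from the dense separatrix to mixing. -/

set_option autoImplicit false

open Set Filter Topology ComplexConjugate

namespace Pool.Agent.U898.BM.MX

open Pool.Agent.U856.BM

theorem norm_rf {n e : ℂ} (h : dt n n = 1) : ‖rf n e‖ = ‖e‖ := by
  have h1 : Complex.normSq (rf n e) = Complex.normSq e := by
    unfold dt at h
    simp only [rf, dt, Complex.normSq_apply, Complex.sub_re, Complex.sub_im, Complex.real_smul,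
      Complex.mul_re, Complex.mul_im, Complex.ofReal_re, Complex.ofReal_im, zero_mul, sub_zero,
      add_zero]
    linear_combination (4 * (n.re * e.re + n.im * e.im) ^ 2) * h
  rw [Complex.norm_def, Complex.norm_def, h1]

section orb

variable {P : Set ℂ} {x e y f : ℂ} {t : ℝ}

theorem end_int (h : Orb P x e t y f) : y ∈ interior P := by
  cases h with
  | start _ h0 h => exact h t ⟨h0, le_rfl⟩
  | bounce t s u y f n hO hs hu h1 h2 h3 => exact h3 u ⟨hu, le_rfl⟩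

theorem start_int (h : Orb P x e t y f) : x ∈ interior P := by
  induction h with
  | start t h0 h => simpa using h 0 ⟨le_rfl, h0⟩
  | bounce t s u y f n hO hs hu h1 h2 h3 ih => exact ih

theorem orb_norm (h : Orb P x e t y f) : ‖f‖ = ‖e‖ := by
  induction h with
  | start t h0 h => rfl
  | bounce t s u y f n hO hs hu h1 h2 h3 ih => rw [norm_rf h2.2.1, ih]

theorem orb_nonneg (h : Orb P x e t y f) : 0 ≤ t := by
  induction h with
  | start t h0 h => exact h0
  | bounce t s u y f n hO hs hu h1 h2 h3 ih => linarith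

theorem seg (hc : Convex ℝ P) {p q : ℝ} (hpq : p ≤ q) (hp : x + p • e ∈ interior P)
    (hq : x + q • e ∈ interior P) : Orb P (x + p • e) e (q - p) (x + q • e) e := by
  have key : ∀ s ∈ Icc 0 (q - p), x + p • e + s • e ∈ interior P := by
    rintro s ⟨hs0, hs1⟩
    rcases hpq.eq_or_lt with h | h
    · have : s = 0 := by linarith
      rw [this, zero_smul, add_zero]
      exact hp
    · have hqp : 0 < q - p := by linarith
      have h1 := hc.interior hp hq (a := 1 - s / (q - p)) (b := s / (q - p))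
        (by rw [sub_nonneg, div_le_one hqp]; exact hs1) (by positivity) (by ring)
      have h2 : (1 - s / (q - p)) • (x + p • e) + (s / (q - p)) • (x + q • e) =
          x + p • e + s • e := by
        have h3 : s = (s / (q - p)) * (q - p) := by field_simp
        conv_rhs => rw [h3]
        module
      rw [h2] at h1
      exact h1
  have h := Orb.start (q - p) (by linarith) key
  have h2 : x + p • e + (q - p) • e = x + q • e := by module
  rwa [h2] at h

end orb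

theorem tb_convex (a b v α : ℝ) : Convex ℝ (Tb a b v α) := by
  intro z hz w hw s t hs ht hst j
  have h1 := mul_le_mul_of_nonneg_left (hz j) hs
  have h2 := mul_le_mul_of_nonneg_left (hw j) ht
  have h3 : dt (nS α j) (s • z + t • w) = s * dt (nS α j) z + t * dt (nS α j) w := by
    simp only [dt, Complex.add_re, Complex.add_im, Complex.real_smul, Complex.mul_re,
      Complex.mul_im, Complex.ofReal_re, Complex.ofReal_im, zero_mul, sub_zero, add_zero]
    ring
  have h4 : s * oS a b v j + t * oS a b v j = oS a b v j := by rw [← add_mul, hst, one_mul]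
  rw [h3]
  linarith

theorem norm_es {a b v α : ℝ} (hok : Ok a b v α) : ‖es a b α‖ = 1 := by
  unfold es
  rw [norm_rf]
  · have ha : 0 < a := by linarith [hok.1]
    have hs : 0 < a ^ 2 + b ^ 2 := by positivity
    have hq : 0 < √(a ^ 2 + b ^ 2) := Real.sqrt_pos.2 hs
    rw [Complex.norm_def]
    have h1 : Complex.normSq (dd a b) = 1 := by
      rw [Complex.normSq_apply]
      simp only [dd]
      have h2 : √(a ^ 2 + b ^ 2) * √(a ^ 2 + b ^ 2) = a ^ 2 + b ^ 2 := Real.mul_self_sqrt hs.le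
      rw [div_mul_div_comm, div_mul_div_comm, h2, ← add_div, div_eq_one_iff_eq hs.ne']
      ring
    rw [h1, Real.sqrt_one]
  · simp only [dt, nS, Matrix.cons_val]
    nlinarith [Real.sin_sq_add_cos_sq α]

/-- from any state near the separatrix at the time `s0` one comes near `(y, f)` -/
def Good (a b v α : ℝ) (y f : ℂ) (ε η S : ℝ) : Prop := ∃ s0 : ℝ, 0 < s0 ∧ s0 ≤ 1 ∧
  ∀ (x e : ℂ) (t : ℝ), ‖x - (VV v α + s0 • es a b α)‖ < η → ‖e - es a b α‖ < η → ‖e‖ = 1 →
    |t - (S - s0)| < η → ∃ y' f' : ℂ, Orb (Tb a b v α) x e t y' f' ∧ ‖y' - y‖ < ε ∧ ‖f' - f‖ < ε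

theorem Good.mono {a b v α : ℝ} {y f : ℂ} {ε η η' S : ℝ} (h : Good a b v α y f ε η S)
    (hle : η' ≤ η) : Good a b v α y f ε η' S := by
  obtain ⟨s0, h1, h2, h3⟩ := h
  exact ⟨s0, h1, h2, fun x e t k1 k2 k3 k4 =>
    h3 x e t (k1.trans_le hle) (k2.trans_le hle) k3 (k4.trans_le hle)⟩

theorem good_local (hTR : S_TR) (hCO : S_CO) {a b v α : ℝ} (hok : Ok a b v α)
    (hD : Dns a b v α) (y f : ℂ) (hy : y ∈ interior (Tb a b v α)) (hf : ‖f‖ = 1) (ε : ℝ)
    (hε : 0 < ε) (θ0 : ℝ) : ∃ (k : ℤ) (η : ℝ), 0 < η ∧ ∀ θ : ℝ, |θ - θ0| < η →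
      Good a b v α y f ε η (θ + k * ll a b) := by
  obtain ⟨r, hr, hball⟩ := Metric.isOpen_iff.1 isOpen_interior y hy
  set ρ : ℝ := min (r / 4) 1 with hρ
  have hρ0 : 0 < ρ := lt_min (by linarith) one_pos
  have hρr : 4 * ρ ≤ r := by
    have := min_le_left (r / 4) 1
    linarith
  have hρ1 : ρ ≤ 1 := min_le_right _ _
  set ε' : ℝ := min (ρ / 2) (ε / 16) with hε'
  have hε'0 : 0 < ε' := lt_min (by linarith) (by linarith)
  have hε'1 : ε' ≤ ρ / 2 := min_le_left _ _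
  have hε'2 : ε' ≤ ε / 16 := min_le_right _ _
  have hyρ : y - ρ • f ∈ interior (Tb a b v α) := by
    apply hball
    rw [Metric.mem_ball, dist_eq_norm]
    have h1 : y - ρ • f - y = -(ρ • f) := by ring
    rw [h1, norm_neg, norm_smul, hf, Real.norm_eq_abs, abs_of_pos hρ0]
    linarith
  obtain ⟨s, y1, f1, k, ⟨s0, hs0, hint, hO⟩, h1, h2, h3⟩ := hD (y - ρ • f) f hyρ hf (θ0 - ρ) ε' hε'0
  have hE1 := norm_es hok
  have hf1 : ‖f1‖ = 1 := by rw [orb_norm hO, hE1]
  set r1 : ℝ := θ0 + k * ll a b - s with hr1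
  rw [abs_lt] at h3
  have hr1a : ρ - ε' < r1 := by rw [hr1]; linarith [h3.2]
  have hr1b : r1 < ρ + ε' := by rw [hr1]; linarith [h3.1]
  have hr10 : 0 < r1 := by linarith
  have hr12 : r1 ≤ 2 * ρ := by linarith
  have hO2 : Orb (Tb a b v α) y1 f1 r1 (y1 + r1 • f1) f1 := by
    refine Orb.start r1 hr10.le fun s hs => hball ?_
    rw [Metric.mem_ball, dist_eq_norm]
    have e1 : y1 + s • f1 - y = (y1 - (y - ρ • f)) + s • f1 - ρ • f := by ring
    rw [e1]
    have n1 : ‖s • f1‖ = s := by rw [norm_smul, hf1, Real.norm_eq_abs, abs_of_nonneg hs.1, mul_one]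
    have n2 : ‖ρ • f‖ = ρ := by rw [norm_smul, hf, Real.norm_eq_abs, abs_of_pos hρ0, mul_one]
    calc ‖(y1 - (y - ρ • f)) + s • f1 - ρ • f‖ ≤ ‖(y1 - (y - ρ • f)) + s • f1‖ + ‖ρ • f‖ := norm_sub_le _ _
      _ ≤ ‖y1 - (y - ρ • f)‖ + ‖s • f1‖ + ‖ρ • f‖ := by gcongr; exact norm_add_le _ _
      _ < r := by rw [n1, n2]; linarith [hs.2]
  set s1 : ℝ := min (s0 / 2) 1 with hs1
  have hs10 : 0 < s1 := lt_min (by linarith) one_pos
  have hs11 : s1 ≤ 1 := min_le_right _ _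
  have hs1s : s1 ≤ s0 / 2 := min_le_left _ _
  have hO0 := seg (tb_convex a b v α) (x := VV v α) (e := es a b α) (p := s1) (q := s0)
    (by linarith) (hint s1 ⟨hs10, by linarith⟩) (hint s0 ⟨hs0, le_rfl⟩)
  have hO3 := hTR _ _ _ _ _ _ _ _ _ hO0 (hTR _ _ _ _ _ _ _ _ _ hO hO2)
  have hnn := orb_nonneg hO
  obtain ⟨δ, hδ, hco⟩ := hCO a b v α _ _ _ _ _ hok hE1 hO3 (ε / 2) (by linarith)
  set τ0 : ℝ := s0 - s1 + (s - s0 + r1) with hτ0
  have hτ0' : τ0 = θ0 + k * ll a b - s1 := by rw [hτ0, hr1]; ring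
  have hτpos : 0 < τ0 := by linarith
  refine ⟨k, min (δ / 2) (τ0 / 2), lt_min (by linarith) (by linarith), fun θ hθ => ?_⟩
  have m1 : min (δ / 2) (τ0 / 2) ≤ δ / 2 := min_le_left _ _
  have m2 : min (δ / 2) (τ0 / 2) ≤ τ0 / 2 := min_le_right _ _
  refine ⟨s1, hs10, hs11, fun x e t k1 k2 k3 k4 => ?_⟩
  rw [abs_lt] at k4 hθ
  have ht1 : |t - τ0| < δ := by
    rw [hτ0', abs_lt]
    constructor <;> linarith [k4.1, k4.2, hθ.1, hθ.2]
  have ht2 : 0 ≤ t := by
    have : τ0 = θ0 + k * ll a b - s1 := hτ0'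
    linarith [k4.1, hθ.1]
  obtain ⟨y', f', hO', hy', hf'⟩ := hco a b v α t x e hok (by simpa using hδ) (by simpa using hδ)
    (by simpa using hδ) (by simpa using hδ) ht1 ht2 (by linarith) (by linarith) k3
  refine ⟨y', f', hO', ?_, ?_⟩
  · have e1 : y' - y = (y' - (y1 + r1 • f1)) + ((y1 - (y - ρ • f)) + r1 • (f1 - f) + (r1 - ρ) • f) := by
      module
    have n1 : ‖r1 • (f1 - f)‖ ≤ 2 * ε' := by
      rw [norm_smul, Real.norm_eq_abs, abs_of_pos hr10]
      nlinarith [norm_nonneg (f1 - f)]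
    have n2 : ‖(r1 - ρ) • f‖ ≤ ε' := by
      rw [norm_smul, hf, mul_one, Real.norm_eq_abs, abs_le]
      constructor <;> linarith
    have n3 : ‖(y1 - (y - ρ • f)) + r1 • (f1 - f) + (r1 - ρ) • f‖ ≤
        ‖y1 - (y - ρ • f)‖ + ‖r1 • (f1 - f)‖ + ‖(r1 - ρ) • f‖ := norm_add₃_le
    rw [e1]
    refine (norm_add_le _ _).trans_lt ?_
    linarith
  · have e1 : f' - f = (f' - f1) + (f1 - f) := by ring
    rw [e1]
    refine (norm_add_le _ _).trans_lt ?_
    linarith

theorem good_unif (hTR : S_TR) (hCO : S_CO) {a b v α : ℝ} (hok : Ok a b v α)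
    (hD : Dns a b v α) (y f : ℂ) (hy : y ∈ interior (Tb a b v α)) (hf : ‖f‖ = 1) (ε : ℝ)
    (hε : 0 < ε) : ∃ η : ℝ, 0 < η ∧ ∃ K : ℝ, ∀ θ ∈ Icc 0 (ll a b), ∃ k : ℤ, |(k : ℝ)| ≤ K ∧
      Good a b v α y f ε η (θ + k * ll a b) := by
  refine isCompact_Icc.induction_on (p := fun Θ => ∃ η : ℝ, 0 < η ∧ ∃ K : ℝ, ∀ θ ∈ Θ, ∃ k : ℤ,
    |(k : ℝ)| ≤ K ∧ Good a b v α y f ε η (θ + k * ll a b)) ?_ ?_ ?_ ?_
  · exact ⟨1, one_pos, 0, fun θ hθ => absurd hθ (notMem_empty θ)⟩
  · rintro s t hst ⟨η, hη, K, h⟩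
    exact ⟨η, hη, K, fun θ hθ => h θ (hst hθ)⟩
  · rintro s t ⟨η, hη, K, h⟩ ⟨η', hη', K', h'⟩
    refine ⟨min η η', lt_min hη hη', max K K', fun θ hθ => ?_⟩
    rcases hθ with hθ | hθ
    · obtain ⟨k, hk, hg⟩ := h θ hθ
      exact ⟨k, hk.trans (le_max_left _ _), hg.mono (min_le_left _ _)⟩
    · obtain ⟨k, hk, hg⟩ := h' θ hθ
      exact ⟨k, hk.trans (le_max_right _ _), hg.mono (min_le_right _ _)⟩
  · intro θ0 _
    obtain ⟨k, η, hη, h⟩ := good_local hTR hCO hok hD y f hy hf ε hε θ0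
    refine ⟨Metric.ball θ0 η, mem_nhdsWithin_of_mem_nhds (Metric.ball_mem_nhds θ0 hη), η, hη,
      |(k : ℝ)|, fun θ hθ => ⟨k, le_rfl, h θ ?_⟩⟩
    rwa [Metric.mem_ball, Real.dist_eq] at hθ

theorem t_MX : S_MX := by
  intro hTR hRV hSD hCO hCR a b v α hok hD x0 y0 e0 f0 hx0 hy0 he0 hf0 ε hε
  obtain ⟨η1, hη1, K, hgood⟩ := good_unif hTR hCO hok hD y0 f0 hy0 hf0 ε hε
  obtain ⟨k', η2, hη2, hgood'⟩ := good_local hTR hCO hok hD x0 (-e0) hx0
    (by rw [norm_neg]; exact he0) ε hε 0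
  obtain ⟨s0', hs0', hs1', hG'⟩ := hgood' 0 (by simpa using hη2)
  set S' : ℝ := 0 + k' * ll a b with hS'
  set l : ℝ := ll a b with hl
  have hl0 : 0 < l := by
    have ha : 0 < a := by linarith [hok.1]
    rw [hl, ll]
    positivity
  set εc : ℝ := min (η1 / 2) (η2 / 2) with hεc
  have hεc0 : 0 < εc := lt_min (by linarith) (by linarith)
  have hεc1 : εc ≤ η1 / 2 := min_le_left _ _
  have hεc2 : εc ≤ η2 / 2 := min_le_right _ _
  obtain ⟨N, hN⟩ := hCR a b v α hok εc hεc0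
  set c0 : ℝ := 2 * (a - v / Real.sin α) * a / √(a ^ 2 + b ^ 2) with hc0
  refine ⟨S' + c0 + (N + K + 1) * l, fun t ht => ?_⟩
  set m : ℤ := ⌊(t - S' - c0) / l⌋ with hm
  have hm1 : (m : ℝ) ≤ (t - S' - c0) / l := Int.floor_le _
  have hm2 : (t - S' - c0) / l < m + 1 := Int.lt_floor_add_one _
  rw [le_div_iff₀ hl0] at hm1
  have hm3 : (N + K + 1 : ℝ) ≤ (t - S' - c0) / l := by
    rw [le_div_iff₀ hl0]; linarith
  rw [div_lt_iff₀ hl0] at hm2
  obtain ⟨k, hk, s0, hs0, hs1, hG⟩ := hgood (t - S' - c0 - m * l) ⟨by linarith, by linarith⟩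
  have hNm : (N : ℝ) + k < m := by
    have h1 : (N + K + 1 : ℝ) < m + 1 := by
      refine hm3.trans_lt ?_
      rw [div_lt_iff₀ hl0]
      exact hm2
    have h2 := le_abs_self (k : ℝ)
    linarith
  have hNm' : (N : ℤ) + k < m := by exact_mod_cast hNm
  obtain ⟨n, hn⟩ : ∃ n : ℕ, (n : ℤ) = m - k := ⟨(m - k).toNat, Int.toNat_of_nonneg (by omega)⟩
  have hnN : N ≤ n := by omega
  have hnR : (n : ℝ) = m - k := by exact_mod_cast hn
  obtain ⟨x, e, tn, u0, hx, he, he1, hcut, him, hu0, htn, hOrb⟩ := hN n hnN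
  set u : ℝ := min u0 (min s0 s0') / 2 with hu
  have hmin : 0 < min u0 (min s0 s0') := lt_min hu0 (lt_min hs0 hs0')
  have hu1 : 0 < u := by rw [hu]; linarith
  have hu2 : u < u0 := by
    have := min_le_left u0 (min s0 s0')
    rw [hu]; linarith
  have hu3 : u < s0 := by
    have := (min_le_right u0 (min s0 s0')).trans (min_le_left _ _)
    rw [hu]; linarith
  have hu4 : u < s0' := by
    have := (min_le_right u0 (min s0 s0')).trans (min_le_right _ _)
    rw [hu]; linarith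
  have hO3 := hOrb u u hu1 hu2 hu1 hu2
  have hxu := end_int hO3
  have hnear : ∀ s : ℝ, 0 < s → s ≤ 1 → ‖x + s • e - (VV v α + s • es a b α)‖ < 2 * εc := by
    intro s h1 h2
    have e1 : x + s • e - (VV v α + s • es a b α) = (x - VV v α) + s • (e - es a b α) := by module
    rw [e1]
    refine (norm_add_le _ _).trans_lt ?_
    rw [norm_smul, Real.norm_eq_abs, abs_of_pos h1]
    nlinarith [norm_nonneg (e - es a b α)]
  obtain ⟨y'', f'', hO2, hy2, hf2⟩ := hG (x + s0 • e) e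
    (t - S' - c0 - m * l + k * l - s0 + (n * l + c0 - tn)) ((hnear s0 hs0 hs1).trans_le (by linarith))
    (by linarith) he1 (by
      have e1 : t - S' - c0 - m * l + k * l - s0 + (n * l + c0 - tn) -
          (t - S' - c0 - m * l + k * l - s0) = -(tn - (n * l + c0)) := by ring
      rw [e1, abs_neg]
      linarith)
  obtain ⟨y1, f1, hO1, hy1, hf1⟩ := hG' (x + s0' • e) e (S' - s0')
    ((hnear s0' hs0' hs1').trans_le (by linarith)) (by linarith) he1 (by
      rw [sub_self, abs_zero]; exact hη2)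
  have hA := seg (tb_convex a b v α) hu3.le hxu (start_int hO2)
  have hB := seg (tb_convex a b v α) hu4.le hxu (start_int hO1)
  have hC := hRV _ _ _ _ _ _ (hTR _ _ _ _ _ _ _ _ _ hB hO1)
  have hF := hTR _ _ _ _ _ _ _ _ _ hC (hTR _ _ _ _ _ _ _ _ _ hO3 (hTR _ _ _ _ _ _ _ _ _ hA hO2))
  have htime : s0' - u + (S' - s0') + (u + tn + u + (s0 - u +
      (t - S' - c0 - m * l + k * l - s0 + (n * l + c0 - tn)))) = t := by
    rw [hnR]
    ring
  rw [htime] at hF
  refine ⟨y1, -f1, y'', f'', hy1, ?_, ?_, hy2, hf2, hF⟩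
  · have e1 : -f1 - e0 = -(f1 - -e0) := by ring
    rw [e1, norm_neg]
    exact hf1
  · rw [norm_neg, orb_norm hO1, he1]

end Pool.Agent.U898.BM.MX
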